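import Mathlib
import Pool.Agent.H57.Cong

namespace Pool.Agent.Results.MP_17cdb9_nt.Fails

open Finset Pool.Agent.H57.Cong

/-- the sum -/
def S (p : ℕ) : ℚ := ∑ k ∈ range p, (-1) ^ k * bn (-1 / 4) k ^ 2

/-- The case p = 1 mod 8 fails. -/
theorem result : ¬ ∀ p : ℕ, p.Prime → p % 8 = 1 → ∀ x y : ℤ, (p : ℤ) = x ^ 2 + 2 * y ^ 2 →
    Cong p 2 (S p) ((-1) ^ ((x + 1) / 2) * (2 * x - p / (2 * x))) := by
  intro h
  have := h 41 (by norm_num) (by norm_num) 3 4 (by norm_num)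
  refine not_cong (by norm_num) ?_ this
  decide +kernel

end Pool.Agent.Results.MP_17cdb9_nt.Fails
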